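import Mathlib
import Pool.Agent.H361R2.InfMain
import Pool.Agent.H38R3.Ellentuck

/-!
Hereditary infinite exact prime patterns: the infinite exact pattern theorem of
`Pool.Agent.H361R2.Inf` combined with the theorem of Ellentuck (`Pool.Agent.H38R3.Ell`).
-/

set_option autoImplicit false

namespace Pool.Agent.W68.Her

open Pool.Agent.H38R3.Ell

/-- `E` is an exact prime pattern of linear forms: for every finite set of forms the primes among
their values at `n` are exactly those of the forms in `E`, for infinitely many `n`. -/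
def ExF (E : Set (ℤ × ℤ)) : Prop :=
  ∀ T : Finset (ℤ × ℤ), (∀ f ∈ T, 1 ≤ f.1) →
    {n : ℕ | ∀ f ∈ T, (Nat.Prime (f.1 * n + f.2).toNat ↔ f ∈ E)}.Infinite

theorem congr_inf {T : Finset (ℤ × ℤ)} {E E' : Set (ℤ × ℤ)} (h : ∀ f ∈ T, (f ∈ E ↔ f ∈ E'))
    (hE : {n : ℕ | ∀ f ∈ T, (Nat.Prime (f.1 * n + f.2).toNat ↔ f ∈ E)}.Infinite) :
    {n : ℕ | ∀ f ∈ T, (Nat.Prime (f.1 * n + f.2).toNat ↔ f ∈ E')}.Infinite := by
  refine hE.mono fun n hn f hf => ?_
  rw [hn f hf, h f hf]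

theorem preimage_bdd {F : ℕ → ℤ × ℤ} (hF : Function.Injective F) (T : Finset (ℤ × ℤ)) :
    ∃ N : ℕ, ∀ a, F a ∈ T → a < N := by
  have h1 : (F ⁻¹' (T : Set (ℤ × ℤ))).Finite := T.finite_toSet.preimage hF.injOn
  obtain ⟨M, hM⟩ := h1.bddAbove
  exact ⟨M + 1, fun a ha => Nat.lt_succ_of_le (hM ha)⟩

/-- the sets of indices whose forms are not an exact prime pattern are Ellentuck open -/
theorem eo {F : ℕ → ℤ × ℤ} (hF : Function.Injective F) : EO {z : Set ℕ | ¬ ExF (F '' z)} := by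
  intro z hz hzi
  simp only [Set.mem_ofPred_eq] at hz
  unfold ExF at hz
  push Not at hz
  obtain ⟨T, hT1, hT2⟩ := hz
  obtain ⟨N, hN⟩ := preimage_bdd hF T
  obtain ⟨u, hu1, hu2, hu3, -⟩ := exists_init hzi N 0
  refine ⟨u, hu1, fun w hw hE => ?_⟩
  have h1 := hE T hT1
  have h2 := congr_inf (E' := F '' z) (fun f hf => ?_) h1
  · exact h2 hT2
  · constructor
    · rintro ⟨a, ha, rfl⟩
      refine ⟨a, ?_, rfl⟩
      rcases hw.2.2 a ha with h | h
      · exact hu3 a h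
      · exact h.1
    · rintro ⟨a, ha, rfl⟩
      exact ⟨a, hw.2.1 a (hu2 a ha (hN a hf)), rfl⟩

/-- every infinite set of primitive forms contains an infinite set all of whose subsets are exact
prime patterns -/
theorem core {F : ℕ → ℤ × ℤ} (hF : Function.Injective F) (Y : Set ℕ) (hY : Y.Infinite)
    (hp : ∀ a ∈ Y, 1 ≤ (F a).1 ∧ IsCoprime (F a).1 (F a).2) :
    ∃ Y' ⊆ Y, Y'.Infinite ∧ ∀ U ⊆ Y', ExF (F '' U) := by
  obtain ⟨Y', h1, h2, h3⟩ := (eo hF).cr ∅ Y hY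
  have h4 : ∀ z ∈ Nb ∅ Y', ExF (F '' z) := by
    rcases h3 with h3 | h3
    · exfalso
      obtain ⟨G, hG1, hG2, hG3⟩ := Pool.Agent.H361R2.Inf.exact_infinite (F '' Y')
        (h2.image hF.injOn) (by
          rintro _ ⟨a, ha, rfl⟩
          exact hp a (h1 ha))
      have h5 : F '' (F ⁻¹' G ∩ Y') = G := by
        ext f
        constructor
        · rintro ⟨a, ha, rfl⟩
          exact ha.1
        · intro hf
          obtain ⟨a, ha, rfl⟩ := hG1 hf
          exact ⟨a, ⟨hf, ha⟩, rfl⟩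
      have h6 : (F ⁻¹' G ∩ Y').Infinite := by
        intro hfin
        apply hG2
        rw [← h5]
        exact hfin.image F
      refine h3 (F ⁻¹' G ∩ Y') ⟨h6, by simp, fun n hn => Or.inr ⟨hn.2, by simp⟩⟩ ?_
      rw [h5]
      exact hG3
    · intro z hz
      by_contra h
      exact h3 z hz h
  refine ⟨Y', h1, h2, fun U hU T hT => ?_⟩
  obtain ⟨N, hN⟩ := preimage_bdd hF T
  have h5 : (Y' \ Set.Iio N).Infinite := h2.sdiff (Set.finite_Iio N)
  have h6 := h4 (U ∪ (Y' \ Set.Iio N)) ⟨h5.mono Set.subset_union_right, by simp, fun n hn => by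
    right
    refine ⟨?_, by simp⟩
    rcases hn with h | h
    · exact hU h
    · exact h.1⟩
  refine congr_inf (fun f hf => ?_) (h6 T hT)
  constructor
  · rintro ⟨a, ha, rfl⟩
    rcases ha with ha | ha
    · exact ⟨a, ha, rfl⟩
    · exact absurd (hN a hf) ha.2
  · rintro ⟨a, ha, rfl⟩
    exact ⟨a, Or.inl ha, rfl⟩

/-- the empty pattern is exact -/
theorem exF_empty : ExF ∅ := by
  obtain ⟨Y', -, -, h⟩ := core (F := fun a => ((1 : ℤ), (a : ℤ)))
    (fun a b h => by simpa using h) Set.univ Set.infinite_univ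
    (fun a _ => ⟨le_rfl, isCoprime_one_left⟩)
  simpa using h ∅ (Set.empty_subset _)

/-- one step: forms which need not be primitive -/
theorem step {F : ℕ → ℤ × ℤ} (hF : Function.Injective F) (Y : Set ℕ) (hY : Y.Infinite) :
    ∃ Y' ⊆ Y, Y'.Infinite ∧ ∀ U ⊆ Y', (∀ a ∈ U, 1 ≤ (F a).1 ∧ IsCoprime (F a).1 (F a).2) →
      ExF (F '' U) := by
  by_cases h : {a ∈ Y | 1 ≤ (F a).1 ∧ IsCoprime (F a).1 (F a).2}.Infinite
  · obtain ⟨Y', h1, h2, h3⟩ := core hF _ h (fun a ha => ha.2)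
    exact ⟨Y', fun a ha => (h1 ha).1, h2, fun U hU _ => h3 U hU⟩
  · rw [Set.not_infinite] at h
    refine ⟨_, Set.sdiff_subset, hY.sdiff h, fun U hU hU2 => ?_⟩
    have : U = ∅ := by
      rw [Set.eq_empty_iff_forall_notMem]
      intro a ha
      exact (hU ha).2 ⟨(hU ha).1, hU2 a ha⟩
    rw [this, Set.image_empty]
    exact exF_empty

/-- the theorem for countably many injective families of forms -/
theorem main_forms (F : ℕ → ℕ → ℤ × ℤ) (hF : ∀ j, Function.Injective (F j)) :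
    ∃ b : ℕ → ℕ, StrictMono b ∧ ∀ (j : ℕ) (I : Set ℕ),
      (∀ i ∈ I, j ≤ i ∧ 1 ≤ (F j (b i)).1 ∧ IsCoprime (F j (b i)).1 (F j (b i)).2) →
      ExF ((fun i => F j (b i)) '' I) := by
  have hstep : ∀ (j : ℕ) (Y : {Y : Set ℕ // Y.Infinite}), ∃ Z : {Y : Set ℕ // Y.Infinite},
      Z.1 ⊆ Y.1 ∧ ∀ U ⊆ Z.1, (∀ a ∈ U, 1 ≤ (F j a).1 ∧ IsCoprime (F j a).1 (F j a).2) →
        ExF (F j '' U) := by
    intro j Y
    obtain ⟨Z, h1, h2, h3⟩ := step (hF j) Y.1 Y.2
    exact ⟨⟨Z, h2⟩, h1, h3⟩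
  choose nx hnx1 hnx2 using hstep
  let s : ℕ → {Y : Set ℕ // Y.Infinite} := fun k =>
    Nat.rec (nx 0 ⟨Set.univ, Set.infinite_univ⟩) (fun j Y => nx (j + 1) Y) k
  have hs : ∀ k, s (k + 1) = nx (k + 1) (s k) := fun k => rfl
  have hgood : ∀ k, ∀ U ⊆ (s k).1,
      (∀ a ∈ U, 1 ≤ (F k a).1 ∧ IsCoprime (F k a).1 (F k a).2) → ExF (F k '' U) := by
    intro k
    rcases k with _ | k
    · exact hnx2 0 _
    · rw [hs]
      exact hnx2 (k + 1) _
  have hanti : Antitone fun k => (s k).1 := antitone_nat_of_succ_le fun k => by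
    show (s (k + 1)).1 ⊆ (s k).1
    rw [hs]
    exact hnx1 _ _
  have hex : ∀ (k m : ℕ), ∃ a ∈ (s k).1, m < a := fun k m => (s k).2.exists_gt m
  choose g hg1 hg2 using hex
  let b : ℕ → ℕ := fun k => Nat.rec (g 0 0) (fun j x => g (j + 1) x) k
  have hb : ∀ k, b (k + 1) = g (k + 1) (b k) := fun k => rfl
  have hbm : StrictMono b := strictMono_nat_of_lt_succ fun k => by
    rw [hb]
    exact hg2 _ _
  have hbs : ∀ k, b k ∈ (s k).1 := by
    intro k
    rcases k with _ | k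
    · exact hg1 0 0
    · exact hg1 (k + 1) (b k)
  refine ⟨b, hbm, fun j I hI => ?_⟩
  have h1 : (fun i => F j (b i)) '' I = F j '' (b '' I) := by
    rw [Set.image_image]
  rw [h1]
  apply hgood j
  · rintro _ ⟨i, hi, rfl⟩
    exact hanti (hI i hi).1 (hbs i)
  · rintro _ ⟨i, hi, rfl⟩
    exact (hI i hi).2

end Pool.Agent.W68.Her
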