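import Pool.Agent.W68.Mil2
import Pool.Agent.W68.Her

/-!
Sum subsystems all of whose block sums are vectors of consecutive prime gaps.
-/

set_option autoImplicit false

namespace Pool.Agent.W68.Gap

open Pool.Agent.H752R3.MT Pool.Agent.W68.Mil Pool.Agent.W68.Her

/-- translation of an exact pattern -/
theorem exF_translate {E : Set (ℤ × ℤ)} (hE : ExF E) (s : ℤ) :
    ExF {g | (g.1, g.2 + g.1 * s) ∈ E} := by
  classical
  intro T hT
  have h1 := hE (T.image fun g => (g.1, g.2 + g.1 * s)) (by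
    intro f hf
    obtain ⟨g, hg, rfl⟩ := Finset.mem_image.1 hf
    exact hT g hg)
  set S := {n : ℕ | ∀ f ∈ T.image fun g => (g.1, g.2 + g.1 * s),
    (Nat.Prime (f.1 * n + f.2).toNat ↔ f ∈ E)} with hS
  have h3 : (S \ Set.Iio s.natAbs).Infinite := h1.sdiff (Set.finite_Iio _)
  have hpos : ∀ m : ℕ, s.natAbs ≤ m → ((((m : ℤ) + s).toNat : ℕ) : ℤ) = m + s := by
    intro m hm
    apply Int.toNat_of_nonneg
    have h4 : (s.natAbs : ℤ) ≤ m := by exact_mod_cast hm
    rw [Int.natCast_natAbs] at h4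
    have h5 := neg_abs_le s
    linarith
  have hinj : Set.InjOn (fun m : ℕ => ((m : ℤ) + s).toNat) (S \ Set.Iio s.natAbs) := by
    intro m hm m' hm' hmm'
    have e1 := hpos m (not_lt.1 hm.2)
    have e2 := hpos m' (not_lt.1 hm'.2)
    simp only at hmm'
    rw [hmm', e2] at e1
    have : (m' : ℤ) = m := by linarith
    exact_mod_cast this.symm
  refine (h3.image hinj).mono ?_
  rintro _ ⟨m, ⟨hm, hm2⟩, rfl⟩ g hg
  have e1 := hpos m (not_lt.1 hm2)
  have h5 := hm (g.1, g.2 + g.1 * s) (Finset.mem_image_of_mem _ hg)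
  simp only at h5 ⊢
  rw [e1]
  have e2 : g.1 * ((m : ℤ) + s) + g.2 = g.1 * m + (g.2 + g.1 * s) := by ring
  rw [e2, h5]
  rfl

/-- positions: partial sums over the blocks -/
def pos (d : ℕ → ℕ) (C : ℕ → Finset ℕ) (m : ℕ) : ℤ :=
  ∑ l ∈ Finset.range m, ∑ a ∈ C l, (d a : ℤ)

theorem blk_sum_pos {d : ℕ → ℕ} (hd : ∀ a, 1 ≤ d a) {A : Finset ℕ} (hA : A.Nonempty) :
    (1 : ℤ) ≤ ∑ a ∈ A, (d a : ℤ) := by
  obtain ⟨a, ha⟩ := hA
  have h1 : (d a : ℤ) ≤ ∑ a ∈ A, (d a : ℤ) :=
    Finset.single_le_sum (f := fun a => (d a : ℤ)) (fun _ _ => Int.natCast_nonneg _) ha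
  have h2 : (1 : ℤ) ≤ d a := by exact_mod_cast hd a
  linarith

theorem pos_succ (d : ℕ → ℕ) (C : ℕ → Finset ℕ) (m : ℕ) :
    pos d C (m + 1) = pos d C m + ∑ a ∈ C m, (d a : ℤ) := by
  unfold pos
  rw [Finset.sum_range_succ]

theorem pos_strictMono {d : ℕ → ℕ} (hd : ∀ a, 1 ≤ d a) {C : ℕ → Finset ℕ} (hC : Blk C) :
    StrictMono (pos d C) := strictMono_nat_of_lt_succ fun m => by
  rw [pos_succ]
  have := blk_sum_pos hd (hC.1 m)
  linarith

theorem le_pos {d : ℕ → ℕ} (hd : ∀ a, 1 ≤ d a) {C : ℕ → Finset ℕ} (hC : Blk C) (m : ℕ) :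
    (m : ℤ) ≤ pos d C m := by
  induction m with
  | zero => simp [pos]
  | succ m ih =>
    rw [pos_succ]
    have := blk_sum_pos hd (hC.1 m)
    push_cast
    linarith

/-- the exact patterns attached to block sequences -/
def good (d : ℕ → ℕ) (q : ℕ) (r : ℤ) (C : ℕ → Finset ℕ) : Prop :=
  ExF (Set.range fun m => ((q : ℤ), r + pos d C m))

theorem good_closed {d : ℕ → ℕ} (hd : ∀ a, 1 ≤ d a) (q : ℕ) (r : ℤ) (Z : ℕ → Finset ℕ)
    (hZ : Blk Z) (hg : ¬ good d q r Z) :
    ∃ m, ∀ Z', Blk Z' → (∀ i < m, Z' i = Z i) → ¬ good d q r Z' := by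
  unfold good ExF at hg
  push Not at hg
  obtain ⟨T, hT1, hT2⟩ := hg
  obtain ⟨M, hM⟩ : ∃ M : ℕ, ∀ f ∈ T, f.2 - r < M := by
    refine ⟨(T.sup fun f => (f.2 - r).toNat) + 1, fun f hf => ?_⟩
    have h1 : (f.2 - r).toNat ≤ T.sup fun f => (f.2 - r).toNat :=
      Finset.le_sup (f := fun f : ℤ × ℤ => (f.2 - r).toNat) hf
    have h2 := Int.self_le_toNat (f.2 - r)
    have h3 : ((f.2 - r).toNat : ℤ) ≤ ((T.sup fun f => (f.2 - r).toNat : ℕ) : ℤ) := by
      exact_mod_cast h1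
    push_cast
    linarith
  refine ⟨M, fun Z' hZ' hZZ hg' => ?_⟩
  have hp : ∀ m ≤ M, pos d Z' m = pos d Z m := by
    intro m hm
    unfold pos
    refine Finset.sum_congr rfl fun l hl => ?_
    rw [hZZ l (by have := Finset.mem_range.1 hl; omega)]
  refine (congr_inf (fun f hf => ?_) (hg' T hT1)) hT2
  constructor
  · rintro ⟨m, rfl⟩
    refine ⟨m, ?_⟩
    have h1 := hM _ hf
    simp only at h1 ⊢
    have h2 := le_pos hd hZ' m
    have h3 : m ≤ M := by
      have : (m : ℤ) < M := by linarith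
      exact_mod_cast this.le
    rw [hp m h3]
  · rintro ⟨m, rfl⟩
    refine ⟨m, ?_⟩
    have h1 := hM _ hf
    simp only at h1 ⊢
    have h2 := le_pos hd hZ m
    have h3 : m ≤ M := by
      have : (m : ℤ) < M := by linarith
      exact_mod_cast this.le
    rw [hp m h3]

/-- block sums divisible by `q` -/
theorem exists_dvd (d : ℕ → ℕ) (q : ℕ) (hq : 1 ≤ q) (X : ℕ → Finset ℕ) (hX : Blk X) :
    ∃ Y, Blk Y ∧ Le Y X ∧ ∀ i, (q : ℤ) ∣ ∑ a ∈ Y i, (d a : ℤ) := by
  classical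
  have : NeZero q := ⟨by omega⟩
  obtain ⟨F, h1, h2, c, hc⟩ := Tau555.finite_unions (κ := ZMod q)
    (fun I => ((∑ a ∈ I.biUnion X, (d a : ℤ) : ℤ) : ZMod q))
  have hF : Blk F := ⟨h1, h2⟩
  have hY : Blk (fun i => (F i).biUnion X) := hF.comp hX
  have hval : ∀ i, ((∑ a ∈ (F i).biUnion X, (d a : ℤ) : ℤ) : ZMod q) = c := by
    intro i
    have := hc {i} (Finset.singleton_nonempty i)
    rwa [Finset.singleton_biUnion] at this
  have hdisj : Disjoint ((F 0).biUnion X) ((F 1).biUnion X) := by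
    rw [Finset.disjoint_left]
    intro a ha hb
    exact absurd (hY.lt (Nat.lt_succ_self 0) a ha a hb) (lt_irrefl a)
  have h01 := hc {0, 1} ⟨0, by simp⟩
  rw [show (({0, 1} : Finset ℕ).biUnion F).biUnion X =
    (F 0).biUnion X ∪ (F 1).biUnion X by
      rw [Finset.biUnion_biUnion, Finset.biUnion_insert, Finset.singleton_biUnion],
    Finset.sum_union hdisj, Int.cast_add, hval 0, hval 1] at h01
  have hc0 : c = 0 := by
    have : c + c = c + 0 := by rw [h01, add_zero]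
    exact add_left_cancel this
  refine ⟨_, hY, fun i => ⟨F i, h1 i, rfl⟩, fun i => ?_⟩
  rw [← ZMod.intCast_zmod_eq_zero_iff_dvd]
  · have := hval i
    rw [hc0] at this
    exact this

theorem good_exists {d : ℕ → ℕ} (hd : ∀ a, 1 ≤ d a) (q : ℕ) (hq : 1 ≤ q) (r : ℤ)
    (hr : IsCoprime r (q : ℤ)) (X : ℕ → Finset ℕ) (hX : Blk X) :
    ∃ Y, Blk Y ∧ Le Y X ∧ good d q r Y := by
  classical
  obtain ⟨V, hV, hVX, hVq⟩ := exists_dvd d q hq X hX
  have hq0 : (1 : ℤ) ≤ q := by exact_mod_cast hq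
  have hdv : ∀ m, (q : ℤ) ∣ pos d V m := fun m => Finset.dvd_sum fun l _ => hVq l
  set F : ℕ → ℤ × ℤ := fun m => ((q : ℤ), r + pos d V m) with hF
  have hFinj : Function.Injective F := by
    intro m m' h
    have := (Prod.ext_iff.1 h).2
    simp only [hF] at this
    exact (pos_strictMono hd hV).injective (by linarith)
  obtain ⟨G, hG1, hG2, hG3⟩ := Pool.Agent.H361R2.Inf.exact_infinite (Set.range F)
    (Set.infinite_range_of_injective hFinj) (by
      rintro _ ⟨m, rfl⟩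
      refine ⟨hq0, ?_⟩
      obtain ⟨t, ht⟩ := hdv m
      simp only [hF]
      rw [ht]
      have h1 : IsCoprime (q : ℤ) r := hr.symm
      exact (IsCoprime.add_mul_left_right_iff).2 h1)
  set M : Set ℕ := F ⁻¹' G with hM
  have hMG : F '' M = G := by
    ext f
    constructor
    · rintro ⟨m, hm, rfl⟩; exact hm
    · intro hf
      obtain ⟨m, rfl⟩ := hG1 hf
      exact ⟨m, hf, rfl⟩
  have hMi : M.Infinite := by
    intro h
    apply hG2
    rw [← hMG]
    exact h.image F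
  set μ : ℕ → ℕ := Nat.nth (· ∈ M) with hμ
  have hμm : StrictMono μ := Nat.nth_strictMono hMi
  have hμr : Set.range μ = M := Nat.range_nth_of_infinite hMi
  set Y : ℕ → Finset ℕ := fun l => (Finset.Ico (μ l) (μ (l + 1))).biUnion V with hY
  have hIco : ∀ l, (Finset.Ico (μ l) (μ (l + 1))).Nonempty := fun l =>
    Finset.nonempty_Ico.2 (hμm (Nat.lt_succ_self l))
  have hBlkI : Blk (fun l => Finset.Ico (μ l) (μ (l + 1))) := by
    refine ⟨hIco, fun i x hx y hy => ?_⟩
    rw [Finset.mem_Ico] at hx hy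
    omega
  have hYB : Blk Y := hBlkI.comp hV
  have hdisj : ∀ i j, i ≠ j → Disjoint (V i) (V j) := by
    intro i j hij
    rw [Finset.disjoint_left]
    intro a ha hb
    rcases Nat.lt_or_gt_of_ne hij with h | h
    · exact absurd (hV.lt h a ha a hb) (lt_irrefl a)
    · exact absurd (hV.lt h a hb a ha) (lt_irrefl a)
  have hsum : ∀ l, ∑ a ∈ Y l, (d a : ℤ) = pos d V (μ (l + 1)) - pos d V (μ l) := by
    intro l
    simp only [hY]
    rw [Finset.sum_biUnion (fun i _ j _ hij => hdisj i j hij)]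
    unfold pos
    rw [← Finset.sum_Ico_eq_sub _ (hμm (Nat.lt_succ_self l)).le]
  have hpos : ∀ m, pos d Y m = pos d V (μ m) - pos d V (μ 0) := by
    intro m
    induction m with
    | zero => simp [pos]
    | succ m ih =>
      rw [pos_succ, ih, hsum]
      ring
  refine ⟨Y, hYB, fun l => FU_mono hVX ⟨_, hIco l, rfl⟩, ?_⟩
  obtain ⟨t, ht⟩ := hdv (μ 0)
  have h1 := exF_translate hG3 t
  unfold good
  have hset : (Set.range fun m => ((q : ℤ), r + pos d Y m)) = {g | (g.1, g.2 + g.1 * t) ∈ G} := by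
    ext g
    simp only [Set.mem_range]
    constructor
    · rintro ⟨m, rfl⟩
      have h2 : F (μ m) ∈ G := by
        have : μ m ∈ M := hμr ▸ Set.mem_range_self m
        exact this
      show ((q : ℤ), r + pos d Y m + q * t) ∈ G
      rw [hpos, ← ht]
      have : r + (pos d V (μ m) - pos d V (μ 0)) + pos d V (μ 0) = r + pos d V (μ m) := by ring
      rw [this]
      exact h2
    · intro hg
      have hg' : (g.1, g.2 + g.1 * t) ∈ F '' M := by rw [hMG]; exact hg
      obtain ⟨m', hm', he⟩ := hg'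
      rw [← hμr] at hm'
      obtain ⟨m, rfl⟩ := hm'
      refine ⟨m, ?_⟩
      simp only [hF, Prod.mk.injEq] at he
      ext
      · exact he.1
      · have h3 : g.2 + g.1 * t = r + pos d V (μ m) := he.2.symm
        rw [← he.1, ← ht] at h3
        simp only
        rw [hpos]
        linarith
  rw [hset]
  exact h1

end Pool.Agent.W68.Gap
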