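import Pool.Agent.W68.Gap

/-!
Sum subsystems all of whose block sums are vectors of consecutive prime gaps: the statement with
integers in a window.
-/

set_option autoImplicit false

namespace Pool.Agent.W68.Gap

open Pool.Agent.H752R3.MT Pool.Agent.W68.Mil Pool.Agent.W68.Her

/-- from forms to shifts -/
theorem window {q : ℕ} (hq : 1 ≤ q) {r : ℤ} {P : ℤ → Prop}
    (h : ExF {f | f.1 = (q : ℤ) ∧ P (f.2 - r)}) (R : ℕ) :
    {n : ℕ | (n : ℤ) ≡ r [ZMOD q] ∧
      ∀ y : ℤ, |y| ≤ R → (Nat.Prime ((n : ℤ) + y).toNat ↔ P y)}.Infinite := by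
  classical
  have hq0 : (1 : ℤ) ≤ (q : ℤ) := by exact_mod_cast hq
  set T : Finset (ℤ × ℤ) := (Finset.Icc (-(R : ℤ)) R).image (fun y => ((q : ℤ), r + y)) with hT
  have h2 := h T (by
    intro f hf
    obtain ⟨y, -, rfl⟩ := Finset.mem_image.1 hf
    exact hq0)
  set S := {m : ℕ | ∀ f ∈ T, (Nat.Prime (f.1 * m + f.2).toNat ↔
    f ∈ {f : ℤ × ℤ | f.1 = (q : ℤ) ∧ P (f.2 - r)})} with hS
  have h3 : (S \ Set.Iio r.natAbs).Infinite := h2.sdiff (Set.finite_Iio _)
  have hpos : ∀ m : ℕ, r.natAbs ≤ m → (((((q : ℤ) * m + r).toNat : ℕ)) : ℤ) =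
      (q : ℤ) * m + r := by
    intro m hm
    apply Int.toNat_of_nonneg
    have h4 : (r.natAbs : ℤ) ≤ m := by exact_mod_cast hm
    rw [Int.natCast_natAbs] at h4
    have h5 := neg_abs_le r
    nlinarith
  have hinj : Set.InjOn (fun m : ℕ => ((q : ℤ) * m + r).toNat) (S \ Set.Iio r.natAbs) := by
    intro m hm m' hm' hmm'
    have e1 := hpos m (not_lt.1 hm.2)
    have e2 := hpos m' (not_lt.1 hm'.2)
    simp only at hmm'
    rw [hmm', e2] at e1
    have e3 : (q : ℤ) * m' = (q : ℤ) * m := by linarith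
    have e4 := mul_left_cancel₀ (by linarith : (q : ℤ) ≠ 0) e3
    exact_mod_cast e4.symm
  refine (h3.image hinj).mono ?_
  rintro _ ⟨m, ⟨hm, hm2⟩, rfl⟩
  have e1 := hpos m (not_lt.1 hm2)
  refine ⟨?_, fun y hy => ?_⟩
  · simp only
    rw [e1]
    exact Int.modEq_iff_dvd.2 ⟨-m, by ring⟩
  · simp only
    rw [e1]
    have h5 := hm ((q : ℤ), r + y) (by
      rw [hT, Finset.mem_image]
      exact ⟨y, Finset.mem_Icc.2 (abs_le.1 hy), rfl⟩)
    have e2 : (q : ℤ) * m + r + y = ((q : ℤ), r + y).1 * m + ((q : ℤ), r + y).2 := by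
      simp only; ring
    rw [e2, h5, Set.mem_ofPred_eq]
    simp

/-- extending finitely many blocks to a block sequence with large steps -/
theorem extend (j k : ℕ) (F : ℕ → Finset ℕ)
    (hF1 : ∀ l < k, (F l).Nonempty) (hF2 : ∀ l < k, ∀ i ∈ F l, j ≤ i)
    (hF3 : ∀ l, l + 1 < k → ∀ i ∈ F l, ∀ i' ∈ F (l + 1), i < i') (R : ℕ) :
    ∃ G : ℕ → Finset ℕ, Blk G ∧ (∀ l < k, G l = F l) ∧ (∀ l, ∀ i ∈ G l, j ≤ i) ∧
      R < (G k).card := by
  classical
  obtain ⟨N, hN⟩ : ∃ N : ℕ, j ≤ N ∧ ∀ l < k, ∀ i ∈ F l, i < N := by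
    refine ⟨j + (((Finset.range k).biUnion F).sup id + 1), by omega, fun l hl i hi => ?_⟩
    have : i ≤ ((Finset.range k).biUnion F).sup id :=
      Finset.le_sup (f := id) (Finset.mem_biUnion.2 ⟨l, Finset.mem_range.2 hl, hi⟩)
    omega
  refine ⟨fun l => if l < k then F l else
    if l = k then Finset.Ico N (N + R + 1) else {N + R + 1 + l}, ⟨fun l => ?_, fun l x hx y hy => ?_⟩,
    fun l hl => if_pos hl, fun l i hi => ?_, ?_⟩
  · beta_reduce
    by_cases h1 : l < k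
    · rw [if_pos h1]; exact hF1 l h1
    · rw [if_neg h1]
      by_cases h2 : l = k
      · rw [if_pos h2]; exact ⟨N, by rw [Finset.mem_Ico]; omega⟩
      · rw [if_neg h2]; exact Finset.singleton_nonempty _
  · beta_reduce at hx hy
    by_cases h1 : l + 1 < k
    · have h0 : l < k := by omega
      rw [if_pos h1] at hy
      rw [if_pos h0] at hx
      exact hF3 l h1 x hx y hy
    · rw [if_neg h1] at hy
      by_cases h2 : l + 1 = k
      · have h0 : l < k := by omega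
        rw [if_pos h2, Finset.mem_Ico] at hy
        rw [if_pos h0] at hx
        have := hN.2 l h0 x hx
        omega
      · have h0 : ¬ l < k := by omega
        rw [if_neg h2, Finset.mem_singleton] at hy
        rw [if_neg h0] at hx
        by_cases h3 : l = k
        · rw [if_pos h3, Finset.mem_Ico] at hx
          omega
        · rw [if_neg h3, Finset.mem_singleton] at hx
          omega
  · simp only at hi
    by_cases h1 : l < k
    · rw [if_pos h1] at hi; exact hF2 l h1 i hi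
    · rw [if_neg h1] at hi
      by_cases h2 : l = k
      · rw [if_pos h2, Finset.mem_Ico] at hi; omega
      · rw [if_neg h2, Finset.mem_singleton] at hi; omega
  · beta_reduce
    rw [if_neg (lt_irrefl k), if_pos rfl, Nat.card_Ico]
    omega

theorem main_gaps (d : ℕ → ℕ → ℕ) (hd : ∀ j a, 1 ≤ d j a) (q : ℕ → ℕ) (hq : ∀ j, 1 ≤ q j)
    (r : ℕ → ℤ) (hr : ∀ j, IsCoprime (r j) (q j : ℤ)) :
    ∃ W : ℕ → Finset ℕ, (∀ i, (W i).Nonempty) ∧ (∀ i, ∀ a ∈ W i, ∀ b ∈ W (i + 1), a < b) ∧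
      ∀ (j k : ℕ) (F : ℕ → Finset ℕ), (∀ l < k, (F l).Nonempty) → (∀ l < k, ∀ i ∈ F l, j ≤ i) →
        (∀ l, l + 1 < k → ∀ i ∈ F l, ∀ i' ∈ F (l + 1), i < i') →
        ∀ R : ℕ, {n : ℕ | (n : ℤ) ≡ r j [ZMOD q j] ∧
          ∀ y : ℤ, |y| ≤ R → (Nat.Prime ((n : ℤ) + y).toNat ↔
            ∃ m ≤ k, y = ∑ l ∈ Finset.range m, ∑ i ∈ F l, ∑ a ∈ W i, (d j a : ℤ))}.Infinite := by
  classical
  obtain ⟨W, hW, hWg⟩ := closed_families (fun j => good (d j) (q j) (r j))
    (fun j Z hZ hg => good_closed (hd j) (q j) (r j) Z hZ hg)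
    (fun j X hX => good_exists (hd j) (q j) (hq j) (r j) (hr j) X hX)
  refine ⟨W, hW.1, hW.2, fun j k F hF1 hF2 hF3 R => ?_⟩
  obtain ⟨G, hG1, hG2, hG3, hG4⟩ := extend j k F hF1 hF2 hF3 R
  set Z : ℕ → Finset ℕ := fun l => (G l).biUnion W with hZ
  have hZB : Blk Z := hG1.comp hW
  have hZL : Le Z (fun i => W (j + i)) := by
    intro l
    refine ⟨(G l).image (fun i => i - j), (hG1.1 l).image _, ?_⟩
    simp only [hZ]
    rw [Finset.image_biUnion]
    refine Finset.biUnion_congr rfl fun i hi => ?_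
    have := hG3 l i hi
    congr 1
    omega
  have hg : ExF (Set.range fun m => ((q j : ℤ), r j + pos (d j) Z m)) := hWg j Z hZB hZL
  have hdisj : ∀ i i', i ≠ i' → Disjoint (W i) (W i') := by
    intro i i' hii
    rw [Finset.disjoint_left]
    intro a ha hb
    rcases Nat.lt_or_gt_of_ne hii with h | h
    · exact absurd (hW.lt h a ha a hb) (lt_irrefl a)
    · exact absurd (hW.lt h a hb a ha) (lt_irrefl a)
  have hsum : ∀ l, ∑ a ∈ Z l, (d j a : ℤ) = ∑ i ∈ G l, ∑ a ∈ W i, (d j a : ℤ) := by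
    intro l
    simp only [hZ]
    rw [Finset.sum_biUnion (fun i _ i' _ hii => hdisj i i' hii)]
  have hp : ∀ m ≤ k, pos (d j) Z m = ∑ l ∈ Finset.range m, ∑ i ∈ F l, ∑ a ∈ W i, (d j a : ℤ) := by
    intro m hm
    unfold pos
    refine Finset.sum_congr rfl fun l hl => ?_
    rw [hsum, hG2 l (by have := Finset.mem_range.1 hl; omega)]
  have hbig : ∀ m, k < m → (R : ℤ) < pos (d j) Z m := by
    intro m hm
    have h1 : pos (d j) Z (k + 1) ≤ pos (d j) Z m :=
      (pos_strictMono (hd j) hZB).monotone hm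
    have h2 : (0 : ℤ) ≤ pos (d j) Z k :=
      le_trans (Int.natCast_nonneg k) (le_pos (hd j) hZB k)
    have h3 : ((G k).card : ℤ) ≤ ∑ i ∈ G k, ∑ a ∈ W i, (d j a : ℤ) := by
      calc ((G k).card : ℤ) = ∑ _i ∈ G k, (1 : ℤ) := by simp
        _ ≤ _ := Finset.sum_le_sum fun i _ => blk_sum_pos (hd j) (hW.1 i)
    have h4 : (R : ℤ) < (G k).card := by exact_mod_cast hG4
    rw [pos_succ, hsum] at h1
    linarith
  have h1 := window (hq j) (r := r j) (P := fun y => ∃ m, y = pos (d j) Z m) (by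
    have : {f : ℤ × ℤ | f.1 = (q j : ℤ) ∧ ∃ m, f.2 - r j = pos (d j) Z m} =
        Set.range fun m => ((q j : ℤ), r j + pos (d j) Z m) := by
      ext f
      simp only [Set.mem_ofPred_eq, Set.mem_range]
      constructor
      · rintro ⟨h1, m, h2⟩
        refine ⟨m, ?_⟩
        ext
        · exact h1.symm
        · simp only
          linarith
      · rintro ⟨m, rfl⟩
        refine ⟨rfl, m, ?_⟩
        simp only
        ring
    rw [this]
    exact hg) R
  refine h1.mono ?_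
  rintro n ⟨hn1, hn2⟩
  refine ⟨hn1, fun y hy => ?_⟩
  rw [hn2 y hy]
  constructor
  · rintro ⟨m, rfl⟩
    by_cases hm : m ≤ k
    · exact ⟨m, hm, hp m hm⟩
    · exfalso
      have h5 := hbig m (by omega)
      have h6 := le_abs_self (pos (d j) Z m)
      linarith
  · rintro ⟨m, hm, h2⟩
    exact ⟨m, by rw [hp m hm]; exact h2⟩

end Pool.Agent.W68.Gap
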