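import Pool.Agent.W68.Mil

/-!
The dichotomy for families of finite block sequences, and families of infinite block sequences
closed under limits, for countably many families at once.
-/

set_option autoImplicit false

namespace Pool.Agent.W68.Mil

open Pool.Agent.H752R3.MT

section forcing

variable (B : Set (List (Finset ℕ)))

/-- `X` accepts `s` -/
def Acc (s : List (Finset ℕ)) (X : ℕ → Finset ℕ) : Prop :=
  ∀ Z, Blk Z → Le Z X → (∀ i, bey s (Z i)) → ∃ m, s ++ seg Z m ∈ B

/-- `X` rejects `s` -/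
def Rej (s : List (Finset ℕ)) (X : ℕ → Finset ℕ) : Prop :=
  ∀ Y, Blk Y → Le Y X → ¬ Acc B s Y

variable {B}

theorem Acc.mono {s : List (Finset ℕ)} {X Y : ℕ → Finset ℕ} (h : LeS s Y X) (hX : Acc B s X) :
    Acc B s Y := fun Z h1 h2 h3 => hX Z h1 (fun i => h _ (h2 i) (h3 i)) h3

theorem Rej.mono {s : List (Finset ℕ)} {X Y : ℕ → Finset ℕ} (h : LeS s Y X) (hX : Rej B s X) :
    Rej B s Y := by
  intro Y' h1 h2 h3
  obtain ⟨N, hN⟩ := exists_bey h1 s
  refine hX (fun i => Y' (N + i)) (Blk.tail h1 N) (fun i => h _ (h2 _) (hN i)) ?_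
  exact Acc.mono (Le.leS (Le.tail Y' N)) h3

theorem seg_succ (Z : ℕ → Finset ℕ) (m : ℕ) :
    seg Z (m + 1) = Z 0 :: seg (fun i => Z (i + 1)) m := by
  unfold seg
  rw [List.range_succ_eq_map, List.map_cons, List.map_map]
  rfl

theorem hindman {Y : ℕ → Finset ℕ} (hY : Blk Y) (p : Finset ℕ → Prop) :
    ∃ Y', Blk Y' ∧ Le Y' Y ∧ ((∀ C ∈ FU Y', p C) ∨ ∀ C ∈ FU Y', ¬ p C) := by
  classical
  obtain ⟨F, h1, h2, c, hc⟩ := Tau555.finite_unions (κ := Bool)
    (fun I => decide (p (I.biUnion Y)))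
  have hF : Blk F := ⟨h1, h2⟩
  refine ⟨fun i => (F i).biUnion Y, hF.comp hY, fun i => ⟨F i, h1 i, rfl⟩, ?_⟩
  rcases hcc : c with _ | _
  · right
    rintro C ⟨I, hI, rfl⟩
    have h3 := hc I hI
    rw [hcc, Finset.biUnion_biUnion, decide_eq_false_iff_not] at h3
    rw [← Finset.biUnion_biUnion]
    rw [← Finset.biUnion_biUnion] at h3
    exact h3
  · left
    rintro C ⟨I, hI, rfl⟩
    have h3 := hc I hI
    rw [hcc, Finset.biUnion_biUnion, decide_eq_true_iff] at h3
    rw [← Finset.biUnion_biUnion]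
    rw [← Finset.biUnion_biUnion] at h3
    exact h3

variable (B)

/-- the dichotomy -/
theorem dichotomy (X : ℕ → Finset ℕ) (hX : Blk X) :
    ∃ Y, Blk Y ∧ Le Y X ∧
      ((∀ s : List (Finset ℕ), s.Pairwise bef → (∀ A ∈ s, A ∈ FU Y) → s ∉ B) ∨
        ∀ Z, Blk Z → Le Z Y → ∃ m, seg Z m ∈ B) := by
  classical
  obtain ⟨Y₁, hY₁, hY₁X, h1⟩ := fusion (fun s Y => Acc B s Y ∨ Rej B s Y)
    (fun s X Y _ _ h h' => h'.imp (Acc.mono h) (Rej.mono h))
    (fun s X hX => by
      by_cases h : ∃ Y, Blk Y ∧ Le Y X ∧ Acc B s Y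
      · obtain ⟨Y, h1, h2, h3⟩ := h
        exact ⟨Y, h1, h2, Or.inl h3⟩
      · exact ⟨X, hX, Le.refl X, Or.inr fun Y h1 h2 h3 => h ⟨Y, h1, h2, h3⟩⟩) X hX
  rcases h1 [] List.Pairwise.nil (by simp) with hacc | hrej
  · refine ⟨Y₁, hY₁, hY₁X, Or.inr fun Z hZ hZY => ?_⟩
    have := hacc Z hZ hZY (fun i A hA => by simp at hA)
    simpa using this
  -- rejecting
  obtain ⟨Y₂, hY₂, hY₂Y, h2⟩ := fusion
    (fun s Y => s.Pairwise bef → (∀ A ∈ s, A ∈ FU Y₁) → Rej B s Y₁ →
      ∀ C ∈ FU Y, C ∈ FU Y₁ → bey s C → Rej B (s ++ [C]) Y₁)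
    (fun s X Y _ _ h h' h3 h4 h5 C hC hC1 hC2 => h' h3 h4 h5 C (h C hC hC2) hC1 hC2)
    (fun s X hX => by
      by_cases hu : s.Pairwise bef ∧ (∀ A ∈ s, A ∈ FU Y₁) ∧ Rej B s Y₁
      swap
      · exact ⟨X, hX, Le.refl X, fun h3 h4 h5 => absurd ⟨h3, h4, h5⟩ hu⟩
      obtain ⟨hs1, hs2, hs3⟩ := hu
      by_cases hXY : LeS s X Y₁
      swap
      · -- pass to a subsequence is impossible: then nothing in `FU Y₁`
        by_cases hex : ∃ Y, Blk Y ∧ Le Y X ∧ LeS s Y Y₁
        · obtain ⟨Y, hY, hYX, hYY⟩ := hex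
          obtain ⟨Y', hY', hYY', h6⟩ := hindman hY (fun C => Acc B (s ++ [C]) Y₁)
          refine ⟨Y', hY', hYY'.trans hYX, fun _ _ _ C hC hC1 hC2 => ?_⟩
          rcases h6 with h6 | h6
          · exfalso
            obtain ⟨N, hN⟩ := exists_bey hY' s
            refine hs3 (fun i => Y' (N + i)) (Blk.tail hY' N)
              (fun i => hYY _ (hYY' _) (hN i)) ?_
            intro Z hZ hZY hZs
            have hZ0 : Z 0 ∈ FU Y' := FU_mono (Le.tail Y' N) (hZY 0)
            obtain ⟨m, hm⟩ := h6 (Z 0) hZ0 (fun i => Z (i + 1)) hZ.shift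
              (fun i => hYY _ (FU_mono (hYY'.trans (Le.refl Y)) (FU_mono (Le.tail Y' N)
                (hZY (i + 1)))) (hZs (i + 1))) (fun i A hA => by
                rcases List.mem_append.1 hA with hA | hA
                · exact hZs (i + 1) A hA
                · rw [List.mem_singleton.1 hA]
                  exact hZ.lt (Nat.succ_pos i))
            refine ⟨m + 1, ?_⟩
            rw [seg_succ]
            simpa using hm
          · have hsC : (s ++ [C]).Pairwise bef := by
              rw [List.pairwise_append]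
              refine ⟨hs1, List.pairwise_singleton _ _, fun A hA D hD => ?_⟩
              rw [List.mem_singleton.1 hD]
              exact hC2 A hA
            rcases h1 (s ++ [C]) hsC (fun A hA => by
              rcases List.mem_append.1 hA with hA | hA
              · exact hs2 A hA
              · rw [List.mem_singleton.1 hA]; exact hC1) with h7 | h7
            · exact absurd h7 (h6 C hC)
            · exact h7
        · -- find a subsequence of `X` avoiding `FU Y₁` beyond `s`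
          obtain ⟨Y', hY', hYY', h6⟩ := hindman hX (fun C => C ∈ FU Y₁)
          refine ⟨Y', hY', hYY', fun _ _ _ C hC hC1 hC2 => ?_⟩
          rcases h6 with h6 | h6
          · exact absurd ⟨Y', hY', hYY', fun D hD _ => h6 D hD⟩ hex
          · exact absurd hC1 (h6 C hC)
      obtain ⟨Y', hY', hYY', h6⟩ := hindman hX (fun C => Acc B (s ++ [C]) Y₁)
      refine ⟨Y', hY', hYY', fun _ _ _ C hC hC1 hC2 => ?_⟩
      rcases h6 with h6 | h6
      · exfalso
        obtain ⟨N, hN⟩ := exists_bey hY' s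
        refine hs3 (fun i => Y' (N + i)) (Blk.tail hY' N)
          (fun i => hXY _ (hYY' _) (hN i)) ?_
        intro Z hZ hZY hZs
        have hZ0 : Z 0 ∈ FU Y' := FU_mono (Le.tail Y' N) (hZY 0)
        obtain ⟨m, hm⟩ := h6 (Z 0) hZ0 (fun i => Z (i + 1)) hZ.shift
          (fun i => hXY _ (FU_mono hYY' (FU_mono (Le.tail Y' N)
            (hZY (i + 1)))) (hZs (i + 1))) (fun i A hA => by
            rcases List.mem_append.1 hA with hA | hA
            · exact hZs (i + 1) A hA
            · rw [List.mem_singleton.1 hA]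
              exact hZ.lt (Nat.succ_pos i))
        refine ⟨m + 1, ?_⟩
        rw [seg_succ]
        simpa using hm
      · have hsC : (s ++ [C]).Pairwise bef := by
          rw [List.pairwise_append]
          refine ⟨hs1, List.pairwise_singleton _ _, fun A hA D hD => ?_⟩
          rw [List.mem_singleton.1 hD]
          exact hC2 A hA
        rcases h1 (s ++ [C]) hsC (fun A hA => by
          rcases List.mem_append.1 hA with hA | hA
          · exact hs2 A hA
          · rw [List.mem_singleton.1 hA]; exact hC1) with h7 | h7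
        · exact absurd h7 (h6 C hC)
        · exact h7) Y₁ hY₁
  refine ⟨Y₂, hY₂, hY₂Y.trans hY₁X, Or.inl fun s hs1 hs2 hsB => ?_⟩
  have hrej' : ∀ s : List (Finset ℕ), s.Pairwise bef → (∀ A ∈ s, A ∈ FU Y₂) → Rej B s Y₁ := by
    intro s
    induction s using List.reverseRecOn with
    | nil => intro _ _; exact hrej
    | append_singleton s C ih =>
      intro h3 h4
      rw [List.pairwise_append] at h3
      have h5 : ∀ A ∈ s, A ∈ FU Y₂ := fun A hA => h4 A (List.mem_append_left _ hA)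
      have h6 : C ∈ FU Y₂ := h4 C (List.mem_append_right _ (List.mem_singleton_self C))
      exact h2 s h3.1 h5 h3.1 (fun A hA => FU_mono hY₂Y (h5 A hA)) (ih h3.1 h5) C h6
        (FU_mono hY₂Y h6) (fun A hA => h3.2.2 A hA C (List.mem_singleton_self C))
  refine hrej' s hs1 hs2 Y₁ hY₁ (Le.refl Y₁) ?_
  intro Z _ _ _
  refine ⟨0, ?_⟩
  simpa [seg] using hsB

end forcing

/-- a family of block sequences which is closed under limits and contains a coarsening of every block
sequence contains all coarsenings of some coarsening of every block sequence -/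
theorem closed_family (good : (ℕ → Finset ℕ) → Prop)
    (hcl : ∀ Z, Blk Z → ¬ good Z → ∃ m, ∀ Z', Blk Z' → (∀ i < m, Z' i = Z i) → ¬ good Z')
    (hex : ∀ X, Blk X → ∃ Y, Blk Y ∧ Le Y X ∧ good Y) (X : ℕ → Finset ℕ) (hX : Blk X) :
    ∃ Y, Blk Y ∧ Le Y X ∧ ∀ Z, Blk Z → Le Z Y → good Z := by
  obtain ⟨Y, h1, h2, h3⟩ := dichotomy
    {s | ∀ Z, Blk Z → seg Z s.length = s → ¬ good Z} X hX
  refine ⟨Y, h1, h2, ?_⟩
  rcases h3 with h3 | h3
  · intro Z hZ hZY
    by_contra hg
    obtain ⟨m, hm⟩ := hcl Z hZ hg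
    refine h3 (seg Z m) ?_ ?_ ?_
    · unfold seg
      rw [List.pairwise_map]
      refine (List.pairwise_lt_range (n := m)).imp ?_
      intro a b hab
      exact hZ.lt hab
    · intro A hA
      unfold seg at hA
      obtain ⟨i, -, rfl⟩ := List.mem_map.1 hA
      exact hZY i
    · intro Z' hZ' hseg
      apply hm Z' hZ'
      intro i hi
      have h4 : seg Z' m = seg Z m := by
        have : (seg Z m).length = m := by simp [seg]
        rwa [this] at hseg
      unfold seg at h4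
      have h5 := List.map_inj_left.1 h4 i (List.mem_range.2 hi)
      exact h5
  · exfalso
    obtain ⟨Z, hZ1, hZ2, hZ3⟩ := hex Y h1
    obtain ⟨m, hm⟩ := h3 Z hZ1 hZ2
    refine hm Z hZ1 ?_ hZ3
    simp [seg]

/-- countably many families at once -/
theorem closed_families (good : ℕ → (ℕ → Finset ℕ) → Prop)
    (hcl : ∀ j Z, Blk Z → ¬ good j Z →
      ∃ m, ∀ Z', Blk Z' → (∀ i < m, Z' i = Z i) → ¬ good j Z')
    (hex : ∀ j X, Blk X → ∃ Y, Blk Y ∧ Le Y X ∧ good j Y) :
    ∃ W, Blk W ∧ ∀ j Z, Blk Z → Le Z (fun i => W (j + i)) → good j Z := by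
  classical
  have hstep : ∀ (j : ℕ) (p : {X : ℕ → Finset ℕ // Blk X}), ∃ q : {X : ℕ → Finset ℕ // Blk X},
      Le q.1 p.1 ∧ ∀ Z, Blk Z → Le Z q.1 → good j Z := by
    rintro j ⟨X, hX⟩
    obtain ⟨Y, h1, h2, h3⟩ := closed_family (good j) (hcl j) (hex j) X hX
    exact ⟨⟨Y, h1⟩, h2, h3⟩
  choose nx hnx1 hnx2 using hstep
  have h0 : Blk (fun i => ({i} : Finset ℕ)) :=
    ⟨fun i => Finset.singleton_nonempty i, fun i x hx y hy => by
      rw [Finset.mem_singleton] at hx hy; omega⟩
  let tl : {X : ℕ → Finset ℕ // Blk X} → {X : ℕ → Finset ℕ // Blk X} := fun p =>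
    ⟨fun i => p.1 (1 + i), Blk.tail p.2 1⟩
  let S : ℕ → {X : ℕ → Finset ℕ // Blk X} := fun k =>
    Nat.rec (nx 0 ⟨_, h0⟩) (fun j p => nx (j + 1) (tl p)) k
  have hS : ∀ k, S (k + 1) = nx (k + 1) (tl (S k)) := fun k => rfl
  have hgood : ∀ k, ∀ Z, Blk Z → Le Z (S k).1 → good k Z := by
    intro k
    rcases k with _ | k
    · exact hnx2 0 _
    · rw [hS]
      exact hnx2 (k + 1) _
  have hle : ∀ k, Le (S (k + 1)).1 (fun i => (S k).1 (1 + i)) := fun k => by
    rw [hS]; exact hnx1 _ _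
  have hle2 : ∀ k d, Le (S (k + d)).1 (S k).1 := by
    intro k d
    induction d with
    | zero => exact Le.refl _
    | succ d ih => exact ((hle (k + d)).trans (Le.tail _ 1)).trans ih
  refine ⟨fun k => (S k).1 0, ⟨fun i => (S i).2.1 0, fun i a ha b hb => ?_⟩, fun j Z hZ hZW => ?_⟩
  · obtain ⟨I, hI, hIe⟩ := hle i 0
    have hb' : b ∈ (S (i + 1)).1 0 := hb
    rw [hIe, Finset.mem_biUnion] at hb'
    obtain ⟨l, _, hl⟩ := hb'
    exact (S i).2.lt (by omega : 0 < 1 + l) a ha b hl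
  · refine hgood j Z hZ (hZW.trans fun i => ?_)
    exact hle2 j i 0

end Pool.Agent.W68.Mil
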