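import Pool.Agent.W68.Her

/-!
Hereditary infinite exact prime patterns: shifts, with congruence conditions.
-/

set_option autoImplicit false

namespace Pool.Agent.W68.Her

theorem main_shifts (φ : ℕ → ℕ → ℤ) (hφ : ∀ j, Function.Injective (φ j)) (q : ℕ → ℕ)
    (hq : ∀ j, 1 ≤ q j) (r : ℕ → ℤ) :
    ∃ b : ℕ → ℕ, StrictMono b ∧ ∀ (j : ℕ) (I : Set ℕ),
      (∀ i ∈ I, j ≤ i ∧ IsCoprime (r j + φ j (b i)) (q j : ℤ)) →
      ∀ R : ℕ, {n : ℕ | (n : ℤ) ≡ r j [ZMOD q j] ∧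
        ∀ y : ℤ, |y| ≤ R → (Nat.Prime ((n : ℤ) + y).toNat ↔ ∃ i ∈ I, φ j (b i) = y)}.Infinite := by
  classical
  obtain ⟨b, hb, h⟩ := main_forms (fun j a => ((q j : ℤ), r j + φ j a)) (fun j a a' haa' => by
    apply hφ j
    have := (Prod.ext_iff.1 haa').2
    simp only at this
    linarith)
  refine ⟨b, hb, fun j I hI R => ?_⟩
  have hq0 : (1 : ℤ) ≤ (q j : ℤ) := by exact_mod_cast hq j
  have h1 := h j I (fun i hi => ⟨(hI i hi).1, hq0, (hI i hi).2.symm⟩)
  set T : Finset (ℤ × ℤ) := (Finset.Icc (-(R : ℤ)) R).image (fun y => ((q j : ℤ), r j + y)) with hT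
  have h2 := h1 T (by
    intro f hf
    obtain ⟨y, -, rfl⟩ := Finset.mem_image.1 hf
    exact hq0)
  -- drop small values
  set S := {m : ℕ | ∀ f ∈ T, (Nat.Prime (f.1 * m + f.2).toNat ↔
    f ∈ (fun i => ((q j : ℤ), r j + φ j (b i))) '' I)} with hS
  have h3 : (S \ Set.Iio (r j).natAbs).Infinite := h2.sdiff (Set.finite_Iio _)
  have hpos : ∀ m : ℕ, (r j).natAbs ≤ m → (((((q j : ℤ) * m + r j).toNat : ℕ)) : ℤ) =
      (q j : ℤ) * m + r j := by
    intro m hm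
    apply Int.toNat_of_nonneg
    have h4 : ((r j).natAbs : ℤ) ≤ m := by exact_mod_cast hm
    rw [Int.natCast_natAbs] at h4
    have h5 := neg_abs_le (r j)
    nlinarith
  have hinj : Set.InjOn (fun m : ℕ => ((q j : ℤ) * m + r j).toNat) (S \ Set.Iio (r j).natAbs) := by
    intro m hm m' hm' hmm'
    have e1 := hpos m (not_lt.1 hm.2)
    have e2 := hpos m' (not_lt.1 hm'.2)
    simp only at hmm'
    rw [hmm', e2] at e1
    have e3 : (q j : ℤ) * m' = (q j : ℤ) * m := by linarith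
    have e4 := mul_left_cancel₀ (by linarith : (q j : ℤ) ≠ 0) e3
    exact_mod_cast e4.symm
  refine (h3.image hinj).mono ?_
  rintro _ ⟨m, ⟨hm, hm2⟩, rfl⟩
  have e1 := hpos m (not_lt.1 hm2)
  refine ⟨?_, fun y hy => ?_⟩
  · simp only
    rw [e1]
    exact Int.modEq_iff_dvd.2 ⟨-m, by ring⟩
  · simp only
    rw [e1]
    have h5 := hm ((q j : ℤ), r j + y) (by
      rw [hT, Finset.mem_image]
      exact ⟨y, Finset.mem_Icc.2 (abs_le.1 hy), rfl⟩)
    have e2 : (q j : ℤ) * m + r j + y = ((q j : ℤ), r j + y).1 * m + ((q j : ℤ), r j + y).2 := by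
      simp only; ring
    rw [e2, h5]
    constructor
    · rintro ⟨i, hi, hiy⟩
      refine ⟨i, hi, ?_⟩
      have := (Prod.ext_iff.1 hiy).2
      simp only at this
      linarith
    · rintro ⟨i, hi, hiy⟩
      exact ⟨i, hi, by rw [← hiy]⟩

end Pool.Agent.W68.Her
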