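import Mathlib
import Pool.Agent.H752R3.MT

/-!
The infinite dimensional finite unions theorem (Milliken) for families of block sequences given by
initial segments, by combinatorial forcing.
-/

set_option autoImplicit false

namespace Pool.Agent.W68.Mil

open Pool.Agent.H752R3.MT

/-- all elements of `A` are smaller than all elements of `B` -/
def bef (A B : Finset ℕ) : Prop := ∀ x ∈ A, ∀ y ∈ B, x < y

/-- `Y` consists of finite unions of `X` -/
def Le (Y X : ℕ → Finset ℕ) : Prop := ∀ i, Y i ∈ FU X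

/-- initial segments -/
def seg (Z : ℕ → Finset ℕ) (m : ℕ) : List (Finset ℕ) := (List.range m).map Z

theorem self_mem_FU (X : ℕ → Finset ℕ) (i : ℕ) : X i ∈ FU X :=
  ⟨{i}, Finset.singleton_nonempty i, by simp⟩

theorem Le.refl (X : ℕ → Finset ℕ) : Le X X := self_mem_FU X

theorem FU_mono {X Y : ℕ → Finset ℕ} (h : Le Y X) : FU Y ⊆ FU X := by
  classical
  rintro v ⟨I, hI, rfl⟩
  choose J hJ1 hJ2 using h
  refine ⟨I.biUnion J, ?_, ?_⟩
  · obtain ⟨i, hi⟩ := hI
    obtain ⟨a, ha⟩ := hJ1 i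
    exact ⟨a, Finset.mem_biUnion.2 ⟨i, hi, ha⟩⟩
  · rw [Finset.biUnion_biUnion]
    exact Finset.biUnion_congr rfl fun i _ => hJ2 i

theorem Le.trans {X Y Z : ℕ → Finset ℕ} (h : Le Z Y) (h' : Le Y X) : Le Z X :=
  fun i => FU_mono h' (h i)

theorem Blk.tail {X : ℕ → Finset ℕ} (h : Blk X) (N : ℕ) : Blk (fun i => X (N + i)) :=
  ⟨fun _ => h.1 _, fun i => h.2 (N + i)⟩

theorem Le.tail (X : ℕ → Finset ℕ) (N : ℕ) : Le (fun i => X (N + i)) X :=
  fun i => self_mem_FU X (N + i)

theorem Blk.ge {X : ℕ → Finset ℕ} (h : Blk X) (i : ℕ) : ∀ x ∈ X i, i ≤ x := by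
  induction i with
  | zero => intro x _; exact Nat.zero_le x
  | succ i ih =>
    intro x hx
    obtain ⟨y, hy⟩ := h.1 i
    have h1 := ih y hy
    have h2 := h.2 i y hy x hx
    omega

theorem FU_nonempty {X : ℕ → Finset ℕ} (h : Blk X) {C : Finset ℕ} (hC : C ∈ FU X) : C.Nonempty := by
  obtain ⟨I, ⟨i, hi⟩, rfl⟩ := hC
  obtain ⟨a, ha⟩ := h.1 i
  exact ⟨a, Finset.mem_biUnion.2 ⟨i, hi, ha⟩⟩

/-- `C` lies beyond all members of the list `s` -/
def bey (s : List (Finset ℕ)) (C : Finset ℕ) : Prop := ∀ A ∈ s, bef A C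

/-- `Y ≤ X` beyond `s` -/
def LeS (s : List (Finset ℕ)) (Y X : ℕ → Finset ℕ) : Prop := ∀ C ∈ FU Y, bey s C → C ∈ FU X

theorem Le.leS {s : List (Finset ℕ)} {Y X : ℕ → Finset ℕ} (h : Le Y X) : LeS s Y X :=
  fun _ hC _ => FU_mono h hC

/-- far members of a block sequence are beyond a given list -/
theorem exists_bey {X : ℕ → Finset ℕ} (h : Blk X) (s : List (Finset ℕ)) :
    ∃ N, ∀ i, bey s (X (N + i)) := by
  obtain ⟨M, hM⟩ : ∃ M, ∀ A ∈ s, ∀ x ∈ A, x < M := by
    induction s with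
    | nil => exact ⟨0, by simp⟩
    | cons A s ih =>
      obtain ⟨M, hM⟩ := ih
      refine ⟨max M (A.sup id + 1), ?_⟩
      intro B hB x hx
      rcases List.mem_cons.1 hB with rfl | hB
      · have : x ≤ B.sup id := Finset.le_sup (f := id) hx
        omega
      · have := hM B hB x hx
        omega
  refine ⟨M, fun i A hA x hx y hy => ?_⟩
  have h1 := hM A hA x hx
  have h2 := Blk.ge h (M + i) y hy
  omega

section fusion

variable (R : List (Finset ℕ) → (ℕ → Finset ℕ) → Prop)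

theorem fin_step (hmono : ∀ s X Y, Blk X → Blk Y → LeS s Y X → R s X → R s Y)
    (hdense : ∀ s X, Blk X → ∃ Y, Blk Y ∧ Le Y X ∧ R s Y) (L : Set (List (Finset ℕ)))
    (hL : L.Finite) (X : ℕ → Finset ℕ) (hX : Blk X) :
    ∃ Y, Blk Y ∧ Le Y X ∧ ∀ s ∈ L, R s Y := by
  induction L, hL using Set.Finite.induction_on with
  | empty => exact ⟨X, hX, Le.refl X, by simp⟩
  | @insert a L _ _ ih =>
    obtain ⟨Y, h1, h2, h3⟩ := ih
    obtain ⟨Y', h4, h5, h6⟩ := hdense a Y h1
    refine ⟨Y', h4, h5.trans h2, fun s hs => ?_⟩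
    rcases Set.mem_insert_iff.1 hs with rfl | hs
    · exact h6
    · exact hmono s Y Y' h1 h4 h5.leS (h3 s hs)

/-- lists of at most `M` subsets of `{0, ..., M - 1}` -/
def Ls (M : ℕ) : Set (List (Finset ℕ)) :=
  {s | s.length ≤ M ∧ ∀ A ∈ s, A ⊆ Finset.range M}

theorem Ls_finite (M : ℕ) : (Ls M).Finite := by
  classical
  let T := {A : Finset ℕ // A ∈ (Finset.range M).powerset}
  have h1 : ({l : List T | l.length ≤ M}).Finite := List.finite_length_le T M
  refine (h1.image (fun l => l.map Subtype.val)).subset ?_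
  rintro s ⟨hs1, hs2⟩
  refine ⟨s.attach.map (fun A => ⟨A.1, Finset.mem_powerset.2 (hs2 A.1 A.2)⟩), ?_, ?_⟩
  · simpa using hs1
  · simp

theorem length_le {M : ℕ} : ∀ (s : List (Finset ℕ)), s.Pairwise bef → (∀ A ∈ s, A.Nonempty) →
    (∀ A ∈ s, ∀ x ∈ A, x < M) → ∀ c, (∀ A ∈ s, ∀ x ∈ A, c ≤ x) → s.length + c ≤ M ∨ s = [] := by
  intro s
  induction s with
  | nil => intro _ _ _ c _; exact Or.inr rfl
  | cons A s ih =>
    intro h1 h2 h3 c hc
    left
    obtain ⟨x, hx⟩ := h2 A List.mem_cons_self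
    rw [List.pairwise_cons] at h1
    have h4 := ih h1.2 (fun B hB => h2 B (List.mem_cons_of_mem _ hB))
      (fun B hB => h3 B (List.mem_cons_of_mem _ hB)) (c + 1) (fun B hB y hy => by
        have h5 := h1.1 B hB x hx y hy
        have h6 := hc A List.mem_cons_self x hx
        omega)
    have h5 := h3 A List.mem_cons_self x hx
    have h6 := hc A List.mem_cons_self x hx
    rcases h4 with h4 | h4
    · simp only [List.length_cons]; omega
    · subst h4; simp only [List.length_cons, List.length_nil]; omega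

theorem fusion (hmono : ∀ s X Y, Blk X → Blk Y → LeS s Y X → R s X → R s Y)
    (hdense : ∀ s X, Blk X → ∃ Y, Blk Y ∧ Le Y X ∧ R s Y) (X : ℕ → Finset ℕ) (hX : Blk X) :
    ∃ Y, Blk Y ∧ Le Y X ∧ ∀ s : List (Finset ℕ), s.Pairwise bef → (∀ A ∈ s, A ∈ FU Y) →
      R s Y := by
  classical
  have hstep : ∀ p : {X : ℕ → Finset ℕ // Blk X}, ∃ q : {X : ℕ → Finset ℕ // Blk X},
      Le q.1 (fun i => p.1 (1 + i)) ∧ ∀ s ∈ Ls ((p.1 0).sup id + 1), R s q.1 := by
    rintro ⟨X, hX⟩
    obtain ⟨Y, h1, h2, h3⟩ := fin_step R hmono hdense _ (Ls_finite ((X 0).sup id + 1))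
      (fun i => X (1 + i)) (Blk.tail hX 1)
    exact ⟨⟨Y, h1⟩, h2, h3⟩
  choose nx hnx1 hnx2 using hstep
  obtain ⟨X0, hX0, hX0X, hR0⟩ := hdense [] X hX
  let S : ℕ → {X : ℕ → Finset ℕ // Blk X} := fun k => Nat.rec ⟨X0, hX0⟩ (fun _ p => nx p) k
  have hS : ∀ k, S (k + 1) = nx (S k) := fun k => rfl
  let y : ℕ → Finset ℕ := fun k => (S k).1 0
  have hle : ∀ k, Le (S (k + 1)).1 (fun i => (S k).1 (1 + i)) := fun k => by
    rw [hS]; exact hnx1 _
  have hRk : ∀ k, ∀ s ∈ Ls ((y k).sup id + 1), R s (S (k + 1)).1 := fun k => by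
    rw [hS]; exact hnx2 _
  have hle' : ∀ k, Le (S (k + 1)).1 (S k).1 := fun k => (hle k).trans (Le.tail _ 1)
  have hle2 : ∀ k d, Le (S (k + d)).1 (S k).1 := by
    intro k d
    induction d with
    | zero => exact Le.refl _
    | succ d ih => exact (hle' (k + d)).trans ih
  have hymem : ∀ k d, y (k + d) ∈ FU (S k).1 := fun k d => hle2 k d 0
  have hY : Blk y := by
    refine ⟨fun i => (S i).2.1 0, fun i a ha b hb => ?_⟩
    obtain ⟨I, hI, hIe⟩ := hle i 0
    have hb' : b ∈ (S (i + 1)).1 0 := hb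
    rw [hIe, Finset.mem_biUnion] at hb'
    obtain ⟨j, _, hj⟩ := hb'
    exact (S i).2.lt (by omega : 0 < 1 + j) a ha b hj
  refine ⟨y, hY, fun i => FU_mono hX0X (by have := hymem 0 i; rwa [Nat.zero_add] at this), ?_⟩
  intro s hs1 hs2
  by_cases hne : s = []
  · subst hne
    refine hmono [] X0 y hX0 hY ?_ hR0
    exact Le.leS fun i => by have := hymem 0 i; rwa [Nat.zero_add] at this
  · -- the last member of `s`
    have hlast := hs2 _ (List.getLast_mem hne)
    obtain ⟨J, hJ, hJe⟩ := hlast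
    set i := J.max' hJ with hi
    have hiJ : i ∈ J := J.max'_mem hJ
    have hsub : ∀ A ∈ s, ∀ x ∈ A, x < (y i).sup id + 1 := by
      intro A hA x hx
      by_cases hAl : A = s.getLast hne
      · rw [hAl, hJe, Finset.mem_biUnion] at hx
        obtain ⟨j, hj, hxj⟩ := hx
        rcases Nat.lt_or_ge j i with h | h
        · obtain ⟨z, hz⟩ := hY.1 i
          have h1 := hY.lt h x hxj z hz
          have h2 : z ≤ (y i).sup id := Finset.le_sup (f := id) hz
          omega
        · have hji : j = i := le_antisymm (J.le_max' j hj) h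
          rw [hji] at hxj
          have h2 : x ≤ (y i).sup id := Finset.le_sup (f := id) hxj
          omega
      · have hb : bef A (s.getLast hne) := by
          rw [← List.dropLast_append_getLast hne] at hs1 hA
          rw [List.pairwise_append] at hs1
          rcases List.mem_append.1 hA with h | h
          · exact hs1.2.2 A h _ (by simp)
          · exact absurd (List.mem_singleton.1 h) hAl
        obtain ⟨z, hz⟩ := hY.1 i
        have hzl : z ∈ s.getLast hne := by
          rw [hJe, Finset.mem_biUnion]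
          exact ⟨i, hiJ, hz⟩
        have h1 := hb x hx z hzl
        have h2 : z ≤ (y i).sup id := Finset.le_sup (f := id) hz
        omega
    have hsL : s ∈ Ls ((y i).sup id + 1) := by
      refine ⟨?_, fun A hA x hx => Finset.mem_range.2 (hsub A hA x hx)⟩
      have h3 := length_le s hs1 (fun A hA => FU_nonempty hY (hs2 A hA)) hsub 0
        (fun _ _ _ _ => Nat.zero_le _)
      rcases h3 with h3 | h3
      · omega
      · exact absurd h3 hne
    refine hmono s (S (i + 1)).1 y (S (i + 1)).2 hY ?_ (hRk i s hsL)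
    rintro C ⟨K, hK, rfl⟩ hC
    have hKi : ∀ k ∈ K, i + 1 ≤ k := by
      intro k hk
      by_contra hcon
      obtain ⟨a, ha⟩ := hY.1 k
      obtain ⟨z, hz⟩ := hY.1 i
      have hzl : z ∈ s.getLast hne := by
        rw [hJe, Finset.mem_biUnion]
        exact ⟨i, hiJ, hz⟩
      have hA : a ∈ K.biUnion y := Finset.mem_biUnion.2 ⟨k, hk, ha⟩
      have h1 := hC _ (List.getLast_mem hne) z hzl a hA
      rcases Nat.lt_or_ge k i with h | h
      · have := hY.lt h a ha z hz
        omega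
      · have hki : k = i := by omega
        rw [hki] at hk
        have h2 := hC _ (List.getLast_mem hne) z hzl z (Finset.mem_biUnion.2 ⟨i, hk, hz⟩)
        omega
    choose! J' hJ1 hJ2 using fun k => fun (hk : i + 1 ≤ k) => (show ∃ I : Finset ℕ, I.Nonempty ∧
      y k = I.biUnion (S (i + 1)).1 from by
        obtain ⟨d, rfl⟩ := Nat.exists_eq_add_of_le hk
        exact hymem (i + 1) d)
    refine ⟨K.biUnion J', ?_, ?_⟩
    · obtain ⟨k, hk⟩ := hK
      obtain ⟨a, ha⟩ := hJ1 k (hKi k hk)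
      exact ⟨a, Finset.mem_biUnion.2 ⟨k, hk, ha⟩⟩
    · rw [Finset.biUnion_biUnion]
      exact Finset.biUnion_congr rfl fun k hk => hJ2 k (hKi k hk)

end fusion

end Pool.Agent.W68.Mil
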